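import Pool.Agent.Helper5.LCU.Stmts
import Pool.Agent.Helper51.UB.KCOL

set_option autoImplicit false

open Finset Pool.Agent.Helper89.UB

namespace Pool.Agent.Helper33.LCU

open Pool.Agent.Helper5.LCU

theorem vr_aux {n : ℕ} (f : Finset (Fin n) → ℤ) (v : Fin n) : ∀ (q : ℕ) (W' : Finset (Fin n)),
    v ∉ W' → pw f (q + 1) (insert v W') =
      ((q : ℤ) + 1) * kcol_cv (fun X => f (insert v X)) (pw f q) W' := by
  intro q
  have hp : ∀ (r : ℕ), pw f (r + 1) = kcol_cv f (pw f r) := fun r => rfl
  have hsplit : ∀ (r : ℕ) (W' : Finset (Fin n)), v ∉ W' → pw f (r + 1) (insert v W') =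
      ∑ S ∈ W'.powerset, f S * pw f r (insert v W' \ S) +
        kcol_cv (fun X => f (insert v X)) (pw f r) W' := by
    intro r W' hvW'
    rw [hp r]
    unfold kcol_cv
    rw [Finset.sum_powerset_insert hvW']
    congr 1
    apply Finset.sum_congr rfl
    intro S hS
    have h1 : insert v W' \ insert v S = W' \ S := by
      ext z
      simp only [Finset.mem_sdiff, Finset.mem_insert]
      constructor
      · rintro ⟨h2 | h2, h3⟩
        · exact absurd (Or.inl h2) h3
        · exact ⟨h2, fun h4 => h3 (Or.inr h4)⟩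
      · rintro ⟨h2, h3⟩
        refine ⟨Or.inr h2, ?_⟩
        rintro (h4 | h4)
        · exact hvW' (h4 ▸ h2)
        · exact h3 h4
    rw [h1]
  induction q with
  | zero =>
    intro W' hvW'
    rw [hsplit 0 W' hvW']
    have h0 : ∑ S ∈ W'.powerset, f S * pw f 0 (insert v W' \ S) = 0 := by
      apply Finset.sum_eq_zero
      intro S hS
      have hS' := Finset.mem_powerset.1 hS
      have hvS : v ∉ S := fun h => hvW' (hS' h)
      have hm : v ∈ insert v W' \ S := Finset.mem_sdiff.2 ⟨Finset.mem_insert_self _ _, hvS⟩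
      have hne : insert v W' \ S ≠ ∅ := Finset.ne_empty_of_mem hm
      simp [pw, hne]
    rw [h0]
    push_cast
    ring
  | succ q ih =>
    intro W' hvW'
    rw [hsplit (q + 1) W' hvW']
    have hB : ∑ S ∈ W'.powerset, f S * pw f (q + 1) (insert v W' \ S) =
        ((q : ℤ) + 1) * kcol_cv (fun X => f (insert v X)) (pw f (q + 1)) W' := by
      rw [hp q, ← kcol_left]
      unfold kcol_cv
      rw [Finset.mul_sum]
      apply Finset.sum_congr rfl
      intro S hS
      have hS' := Finset.mem_powerset.1 hS
      have hvS : v ∉ S := fun h => hvW' (hS' h)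
      have h2 : insert v W' \ S = insert v (W' \ S) := by
        ext z
        simp only [Finset.mem_sdiff, Finset.mem_insert]
        constructor
        · rintro ⟨h2 | h2, h3⟩
          · exact Or.inl h2
          · exact Or.inr ⟨h2, h3⟩
        · rintro (h2 | ⟨h2, h3⟩)
          · exact ⟨Or.inl h2, fun h4 => hvS (h2 ▸ h4)⟩
          · exact ⟨Or.inr h2, h3⟩
      have h3 := ih (W' \ S) (fun h => hvW' (Finset.mem_sdiff.1 h).1)
      rw [hp q] at h3
      unfold kcol_cv at h3
      rw [h2, h3]
      ring
    rw [hB]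
    push_cast
    ring

theorem st_VR : ST_VR := by
  intro n f q W v hv
  have h := vr_aux f v q (W.erase v) (Finset.notMem_erase v W)
  rw [Finset.insert_erase hv] at h
  rw [h]
  unfold kcol_cv
  rfl

end Pool.Agent.Helper33.LCU
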